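import Pool.Agent.Q77.BT.Base
import Pool.Agent.Y147.SP.INT
import Pool.Agent.Y255.SP.HOMT

/-!
# Project BT (helper77), job HM: homotopy invariance and proportionality of the local degree
-/

set_option autoImplicit false
set_option maxHeartbeats 400000

open MeasureTheory Set Metric Filter Topology
open scoped NNReal RealInnerProductSpace

noncomputable section

namespace Pool.Agent.Q6.BT

open Pool.Agent.Q77.BT

variable {m n : ℕ}

/-- the bump function -/
def bump (m : ℕ) : ContDiffBump (0 : Pool.Agent.Q77.BT.E m) := ⟨3 / 4, 1, by norm_num, by norm_num⟩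

/-- the cut off -/
def cutF (f : Pool.Agent.Q77.BT.E m → Pool.Agent.Q77.BT.E m) (x : Pool.Agent.Q77.BT.E m) :
    Pool.Agent.Q77.BT.E m := x + bump m x • (f x - x)

theorem cut_contDiff {f : Pool.Agent.Q77.BT.E m → Pool.Agent.Q77.BT.E m} (hf : ContDiff ℝ 1 f) :
    ContDiff ℝ 1 (cutF f) := by
  unfold cutF
  exact contDiff_id.add ((bump m).contDiff.smul (hf.sub contDiff_id))

theorem cut_far (f : Pool.Agent.Q77.BT.E m → Pool.Agent.Q77.BT.E m) (x : Pool.Agent.Q77.BT.E m)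
    (hx : 1 ≤ ‖x‖) : cutF f x = x := by
  unfold cutF
  have h : bump m x = 0 := by
    apply (bump m).zero_of_le_dist
    rw [dist_zero_right]
    exact hx
  rw [h, zero_smul, add_zero]

theorem cut_near (f : Pool.Agent.Q77.BT.E m → Pool.Agent.Q77.BT.E m) (x : Pool.Agent.Q77.BT.E m)
    (hx : ‖x‖ ≤ 3 / 4) : cutF f x = f x := by
  unfold cutF
  have h : bump m x = 1 := by
    apply (bump m).one_of_mem_closedBall
    rw [mem_closedBall_zero_iff]
    exact hx
  rw [h, one_smul, add_sub_cancel]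

theorem dg_cut {F : Pool.Agent.Q77.BT.E m → Pool.Agent.Q77.BT.E n} (hF : Continuous F)
    {O : Set (Pool.Agent.Q77.BT.E n)} (hO : IsOpen O) (hU : ∀ y ∈ UU F O, ‖y‖ ≤ 1 / 2)
    (f : Pool.Agent.Q77.BT.E m → Pool.Agent.Q77.BT.E m) (φ : Pool.Agent.Q77.BT.E m → ℝ) :
    ∫ y in UU F O, φ (cutF f y) * (fderiv ℝ (cutF f) y).det = dg F O f φ := by
  unfold dg
  apply setIntegral_congr_fun (isOpen_UU hF hO).measurableSet
  intro y hy
  have h1 : ‖y‖ ≤ 1 / 2 := hU y hy
  have h2 : cutF f =ᶠ[𝓝 y] f := by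
    have h3 : ∀ᶠ x in 𝓝 y, ‖x‖ < 3 / 4 :=
      (isOpen_lt continuous_norm continuous_const).mem_nhds (by
        show ‖y‖ < 3 / 4
        linarith)
    filter_upwards [h3] with x hx
    exact cut_near f x hx.le
  show φ (cutF f y) * (fderiv ℝ (cutF f) y).det = φ (f y) * (fderiv ℝ f y).det
  rw [h2.fderiv_eq, h2.eq_of_nhds]

theorem collar {F : Pool.Agent.Q77.BT.E m → Pool.Agent.Q77.BT.E n} (hF : Continuous F)
    {O : Set (Pool.Agent.Q77.BT.E n)} (hU : ∀ y ∈ UU F O, ‖y‖ ≤ 1 / 2) {e : ℝ} (he : 0 < e) :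
    ∃ η : ℝ, 0 < η ∧ Bornology.IsBounded (thickening η (UU F O)) ∧
      ∀ y ∈ thickening η (UU F O) \ UU F O, ‖y‖ ≤ 3 / 4 ∧ F y ∉ O ∧ ∃ w ∈ O, dist (F y) w < e := by
  have hK : IsCompact (closedBall (0 : Pool.Agent.Q77.BT.E m) 1) := isCompact_closedBall 0 1
  have huc := hK.uniformContinuousOn_of_continuous hF.continuousOn
  rw [Metric.uniformContinuousOn_iff] at huc
  obtain ⟨d, hd, hd2⟩ := huc e he
  refine ⟨min d (1 / 4), lt_min hd (by norm_num), (bounded_UU F O).thickening, ?_⟩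
  rintro y ⟨hy, hy2⟩
  rw [mem_thickening_iff] at hy
  obtain ⟨y', hy', hyy⟩ := hy
  have h1 : ‖y'‖ ≤ 1 / 2 := hU y' hy'
  have h2 : ‖y‖ ≤ 3 / 4 := by
    have h3 : ‖y - y'‖ < 1 / 4 := by
      rw [← dist_eq_norm]
      exact lt_of_lt_of_le hyy (min_le_right _ _)
    calc ‖y‖ = ‖y' + (y - y')‖ := by rw [add_sub_cancel]
      _ ≤ ‖y'‖ + ‖y - y'‖ := norm_add_le _ _
      _ ≤ 3 / 4 := by linarith
  refine ⟨h2, fun h => hy2 ⟨by linarith, h⟩, F y', hy'.2, ?_⟩
  apply hd2 y _ y' _ (lt_of_lt_of_le hyy (min_le_left _ _))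
  · rw [mem_closedBall_zero_iff]; linarith
  · rw [mem_closedBall_zero_iff]; linarith

/-- homotopy -/
theorem hm : S_HM := by
  intro m n F hF O hO hU e he f1 f2 h1 h2 ρ a hρ hcol φ hφ hφ0
  obtain ⟨η, hη, hb, hc⟩ := collar hF hU he
  have key := Pool.Agent.Y255.SP.t_HOMT m (cutF f1) f2 1 (cut_contDiff h1) h2 (cut_far f1) (UU F O)
    (thickening η (UU F O)) η ρ a (isOpen_UU hF hO) hb hη hρ (le_refl _) (by
      intro x hx t ht
      obtain ⟨c1, c2, c3⟩ := hc x hx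
      rw [cut_near f1 x c1, dist_eq_norm]
      exact hcol x (by linarith) c2 c3 t ht) φ hφ (by
      intro w hw
      apply hφ0 w
      rw [← dist_eq_norm]
      exact hw)
  rw [dg_cut hF hO hU f1 φ] at key
  exact key

/-- proportionality to the integral -/
theorem pr : S_PR := by
  intro m n F hF O hO hU e he f hf ρ a hρ hcol
  obtain ⟨η, hη, hb, hc⟩ := collar hF hU he
  obtain ⟨d, hd⟩ := Pool.Agent.Y147.SP.t_INT Pool.Agent.Y255.SP.t_HOMT m (cutF f) 1
    (cut_contDiff hf) (cut_far f) (UU F O) (thickening η (UU F O)) η ρ a (isOpen_UU hF hO) hb hη hρ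
    (le_refl _) (by
      intro x hx
      obtain ⟨c1, c2, c3⟩ := hc x hx
      rw [cut_near f x c1, dist_eq_norm]
      exact hcol x (by linarith) c2 c3)
  refine ⟨(d : ℝ), fun φ hφ hφ0 => ?_⟩
  have key := hd φ hφ (by
      intro w hw
      apply hφ0 w
      rw [← dist_eq_norm]
      exact hw)
  rw [dg_cut hF hO hU f φ] at key
  exact key

end Pool.Agent.Q6.BT
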